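import Pool.Agent.H10.PB.Targets
import Pool.Agent.H58.PS.FI
import Pool.Agent.H58.PS.CO
import Pool.Agent.H90.PS.EQD

set_option autoImplicit false

open MeasureTheory Filter Topology
open Pool.Agent.H10.PS Pool.Agent.H10.PB
open scoped commutatorElement

namespace Pool.Agent.H34.PB

variable {r : ℕ}

/-- `R` acts commutatively on the indicators of the subgroups above `[R,R]`. -/
lemma act_comm (R N H : Subgroup (FG r)) (hRR : ⁅R, R⁆ ≤ N) (hNH : N ≤ H) (x : XX r)
    (hxH : ∀ w, x w = true ↔ w ∈ H) (g h : R) :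
    conjX ((g * h : R) : FG r) x = conjX ((h * g : R) : FG r) x := by
  funext w
  rw [Bool.eq_iff_iff]
  unfold conjX
  rw [hxH, hxH]
  set gg : FG r := (g : FG r)
  set hh : FG r := (h : FG r)
  have hk : hh⁻¹ * gg⁻¹ * hh * gg ∈ H := by
    apply hNH
    apply hRR
    have := Subgroup.commutator_mem_commutator (H₁ := R) (H₂ := R) (R.inv_mem h.2)
      (R.inv_mem g.2)
    rw [commutatorElement_def] at this
    simpa using this
  have e1 : ((h * g : R) : FG r) = hh * gg := rfl
  have e2 : ((g * h : R) : FG r) = gg * hh := rfl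
  rw [e1, e2]
  constructor
  · intro hw
    have := H.mul_mem (H.mul_mem (H.inv_mem hk) hw) hk
    have e3 : (hh⁻¹ * gg⁻¹ * hh * gg)⁻¹ * ((gg * hh)⁻¹ * w * (gg * hh)) *
        (hh⁻¹ * gg⁻¹ * hh * gg) = (hh * gg)⁻¹ * w * (hh * gg) := by group
    rwa [e3] at this
  · intro hw
    have := H.mul_mem (H.mul_mem hk hw) (H.inv_mem hk)
    have e3 : (hh⁻¹ * gg⁻¹ * hh * gg) * ((hh * gg)⁻¹ * w * (hh * gg)) *
        (hh⁻¹ * gg⁻¹ * hh * gg)⁻¹ = (gg * hh)⁻¹ * w * (gg * hh) := by group
    rwa [e3] at this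

theorem avg' (h1 : T_FI) (h4 : T_EQD) : T_AVG := by
  classical
  intro r R N hS μ hμ g C hg hC
  have := hμ.prob
  let _ := conjAct R
  obtain ⟨K, a, hKpos, ha⟩ := h4 R
  have hKpos' : ∀ k, (0 : ℝ) < K k := fun k => by exact_mod_cast hKpos k
  -- pointwise bound
  have hb : ∀ x, |ravg R g x| ≤ C := by
    intro x
    have hC0 : 0 ≤ C := (abs_nonneg _).trans (hC x)
    unfold ravg
    split_ifs with h
    · rcases Nat.eq_zero_or_pos h.toFinset.card with h0 | h0
      · rw [h0]; simpa using hC0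
      · have h0' : (0 : ℝ) < h.toFinset.card := by exact_mod_cast h0
        rw [abs_div, abs_of_pos h0', div_le_iff₀ h0']
        refine (Finset.abs_sum_le_sum_abs _ _).trans ?_
        refine (Finset.sum_le_sum fun i _ => hC i).trans ?_
        rw [Finset.sum_const, nsmul_eq_mul, mul_comm]
    · simpa using hC0
  set Ψ : ℕ → XX r → ℝ := fun k x => (∑ i : Fin (K k), g (conjX (a k i : FG r) x)) / K k with hΨ
  have hmterm : ∀ k (i : Fin (K k)), Measurable (fun x => g (conjX (a k i : FG r) x)) :=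
    fun k i => hg.comp (measurable_conjX _)
  have hmΨ : ∀ k, Measurable (Ψ k) := by
    intro k
    exact (Finset.measurable_fun_sum _ fun i _ => hmterm k i).div_const _
  have hbΨ : ∀ k x, |Ψ k x| ≤ C := by
    intro k x
    show |(∑ i : Fin (K k), g (conjX (a k i : FG r) x)) / K k| ≤ C
    rw [abs_div, abs_of_pos (hKpos' k), div_le_iff₀ (hKpos' k)]
    refine (Finset.abs_sum_le_sum_abs _ _).trans ?_
    refine (Finset.sum_le_sum fun i _ => hC _).trans ?_
    rw [Finset.sum_const, Finset.card_univ, Fintype.card_fin, nsmul_eq_mul, mul_comm]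
  -- eventual equality
  have hfi := h1 r R N hS.Rn hS.Nn hS.comm hS.NR hS.RR μ hμ
  have hev : ∀ᵐ x ∂μ, ∃ k₀, ∀ k, k₀ ≤ k → Ψ k x = ravg R g x := by
    filter_upwards [hμ.sub, hfi] with x hx hfin
    obtain ⟨H, hNH, hxH⟩ := hx
    have horb : MulAction.orbit R x = {y | ∃ a ∈ R, y = conjX a x} := by
      ext y
      constructor
      · rintro ⟨g, rfl⟩
        exact ⟨g, g.2, rfl⟩
      · rintro ⟨g, hg, rfl⟩
        exact ⟨⟨g, hg⟩, rfl⟩
    have hfo : (MulAction.orbit R x).Finite := by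
      rw [horb]
      exact hfin
    have hcomm : ∀ g h : R, (g * h) • x = (h * g) • x := fun g h =>
      act_comm R N H hS.RR hNH x hxH g h
    obtain ⟨k₀, hk₀⟩ := ha (XX r) x hfo hcomm
    refine ⟨k₀, fun k hk => ?_⟩
    have e1 : Ψ k x = (∑ z ∈ hfo.toFinset, g z) / hfo.toFinset.card := hk₀ k hk g
    rw [e1]
    unfold ravg
    rw [dif_pos hfin]
    have e2 : hfo.toFinset = hfin.toFinset := by
      ext y
      rw [Set.Finite.mem_toFinset, Set.Finite.mem_toFinset, horb]
    rw [e2]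
  have hlim : ∀ᵐ x ∂μ, Tendsto (fun k => Ψ k x) atTop (𝓝 (ravg R g x)) := by
    filter_upwards [hev] with x hx
    obtain ⟨k₀, hk₀⟩ := hx
    refine tendsto_const_nhds.congr' ?_
    filter_upwards [eventually_ge_atTop k₀] with k hk
    exact (hk₀ k hk).symm
  refine ⟨hb, aestronglyMeasurable_of_tendsto_ae atTop
    (fun k => (hmΨ k).aestronglyMeasurable) hlim, ?_⟩
  intro X₀ hX₀ hinv
  have hval : ∀ k, ∫ x in X₀, Ψ k x ∂μ = ∫ x in X₀, g x ∂μ := by
    intro k
    have hint : ∀ (i : Fin (K k)),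
        Integrable (fun x => g (conjX (a k i : FG r) x)) (μ.restrict X₀) := fun i =>
      Integrable.of_bound (hmterm k i).aestronglyMeasurable C
        (ae_of_all _ fun x => by rw [Real.norm_eq_abs]; exact hC _)
    show ∫ x in X₀, (∑ i : Fin (K k), g (conjX (a k i : FG r) x)) / K k ∂μ = _
    rw [integral_div, integral_finsetSum _ fun i _ => hint i]
    have e1 : ∀ i : Fin (K k), ∫ x in X₀, g (conjX (a k i : FG r) x) ∂μ = ∫ x in X₀, g x ∂μ :=
      fun i => setIntegral_conj μ hμ.inv X₀ hX₀ _ (hinv _ (a k i).2) g hg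
    rw [Finset.sum_congr rfl fun i _ => e1 i, Finset.sum_const, Finset.card_univ,
      Fintype.card_fin, nsmul_eq_mul]
    field_simp [(hKpos' k).ne']
  have hl2 : Tendsto (fun k => ∫ x in X₀, Ψ k x ∂μ) atTop (𝓝 (∫ x in X₀, ravg R g x ∂μ)) := by
    refine tendsto_integral_of_dominated_convergence (fun _ => C)
      (fun k => (hmΨ k).aestronglyMeasurable) (integrable_const _)
      (fun k => ae_of_all _ fun x => by rw [Real.norm_eq_abs]; exact hbΨ k x) ?_
    exact ae_restrict_of_ae hlim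
  simp only [hval] at hl2
  exact tendsto_nhds_unique hl2 tendsto_const_nhds

theorem avg : T_AVG := avg' (Pool.Agent.H58.PS.FI Pool.Agent.H58.PS.CO) Pool.Agent.H10.PS.EQD

end Pool.Agent.H34.PB
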