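import Pool.Agent.H10.PB.Targets

set_option autoImplicit false

open MeasureTheory Filter Topology
open Pool.Agent.H10.PS Pool.Agent.H10.PB

namespace Pool.Agent.H34.PB

lemma integral_comp_of_ae {X : Type} [MeasurableSpace X] {μ : Measure X} {T : X → X}
    (hT : MeasurePreserving T μ μ) {f : X → ℝ} (hf : AEStronglyMeasurable f μ) :
    ∫ x, f (T x) ∂μ = ∫ x, f x ∂μ := by
  conv_rhs => rw [← hT.map_eq]
  rw [integral_map hT.aemeasurable (by rw [hT.map_eq]; exact hf)]

/-- the pointwise estimate -/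
lemma erg_pointwise (hC : T_COMB) {X : Type} (T : X → X) (f : X → ℝ) (B u : ℝ) (hB : 0 ≤ B)
    (hfB : ∀ x, f x - u ≤ B) {ι : Type} (G : ι → Set X) (I : Finset ι) (x : X)
    (hx : ∀ k : ℕ, ∀ i, ∀ n : ℕ, 0 < n → T^[k] x ∈ G i → T^[n] (T^[k] x) ∈ G i →
      ∑ j ∈ Finset.range n, f (T^[j] (T^[k] x)) ≤ u * n) (n : ℕ) :
    ∑ k ∈ Finset.range n, (f (T^[k] x) - u) ≤
      B * (∑ k ∈ Finset.range n,
        ((⋃ i ∈ I, G i)ᶜ).indicator (fun _ => (1 : ℝ)) (T^[k] x) + I.card) := by
  classical
  have h := hC n (fun k => f (T^[k] x) - u) B ι I (fun i => {k | T^[k] x ∈ G i}) hB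
    (fun k => hfB _) (by
      intro i hi k l hkl hl hk hl'
      have h1 := hx k i (l - k) (by omega) hk (by
        rw [← Function.iterate_add_apply]
        have : l - k + k = l := by omega
        rw [this]; exact hl')
      rw [Finset.sum_Ico_eq_sum_range]
      have h2 : ∀ j ∈ Finset.range (l - k), f (T^[k + j] x) - u = f (T^[j] (T^[k] x)) - u := by
        intro j _
        rw [← Function.iterate_add_apply, add_comm]
      rw [Finset.sum_congr rfl h2, Finset.sum_sub_distrib]
      simp only [Finset.sum_const, Finset.card_range, nsmul_eq_mul]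
      linarith)
  refine h.trans (le_of_eq ?_)
  congr 2
  have h3 : ∀ k : ℕ, ((⋃ i ∈ I, G i)ᶜ).indicator (fun _ => (1 : ℝ)) (T^[k] x)
      = if (∀ i ∈ I, k ∉ {k | T^[k] x ∈ G i}) then 1 else 0 := by
    intro k
    by_cases hk : ∀ i ∈ I, k ∉ {k | T^[k] x ∈ G i}
    · rw [if_pos hk, Set.indicator_of_mem]
      simp only [Set.mem_compl_iff, Set.mem_iUnion, not_exists]
      intro i hi
      exact hk i hi
    · rw [if_neg hk, Set.indicator_of_notMem]
      simp only [Set.mem_compl_iff, not_not, Set.mem_iUnion]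
      push Not at hk
      obtain ⟨i, hi, hk⟩ := hk
      exact ⟨i, hi, hk⟩
  simp only [h3]
  rw [Nat.card_eq_fintype_card, Fintype.card_subtype, Finset.sum_range, Finset.card_filter]
  push_cast
  rfl

theorem erg (hC : T_COMB) : T_ERG := by
  intro X _ μ _ T hT f C u hf hfC ι _ G hG hblk hcov
  classical
  set B : ℝ := |C| + |u| with hBdef
  have hB : 0 ≤ B := by positivity
  have hfB : ∀ x, f x - u ≤ B := by
    intro x
    have h1 := hfC x
    have h2 := le_abs_self C
    have h3 := neg_abs_le u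
    have h4 := le_abs_self (f x)
    rw [hBdef]; linarith
  have hfi : Integrable f μ := by
    refine Integrable.of_bound hf |C| (Eventually.of_forall fun x => ?_)
    rw [Real.norm_eq_abs]
    exact (hfC x).trans (le_abs_self C)
  -- good points
  have hgood : ∀ᵐ x ∂μ, ∀ k : ℕ, ∀ i, ∀ n : ℕ, 0 < n → T^[k] x ∈ G i →
      T^[n] (T^[k] x) ∈ G i → ∑ j ∈ Finset.range n, f (T^[j] (T^[k] x)) ≤ u * n := by
    have h1 : ∀ᵐ x ∂μ, ∀ i, ∀ n : ℕ, 0 < n → x ∈ G i → T^[n] x ∈ G i →
        ∑ k ∈ Finset.range n, f (T^[k] x) ≤ u * n := ae_all_iff.2 hblk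
    rw [ae_all_iff]
    intro k
    exact (hT.iterate k).quasiMeasurePreserving.ae h1
  -- key estimate
  have key : ∀ (I : Finset ι) (n : ℕ), 0 < n →
      ∫ x, f x ∂μ - u ≤ B * (μ.real (⋃ i ∈ I, G i)ᶜ + I.card / n) := by
    intro I n hn
    have hmeas : MeasurableSet (⋃ i ∈ I, G i)ᶜ :=
      (Finset.measurableSet_biUnion I fun i _ => hG i).compl
    set S : Set X := (⋃ i ∈ I, G i)ᶜ with hS
    have hint : ∀ k : ℕ, Integrable (fun x => f (T^[k] x)) μ := fun k =>
      (hT.iterate k).integrable_comp_of_integrable hfi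
    have hintS : Integrable (S.indicator (fun _ => (1 : ℝ))) μ :=
      (integrable_const (1 : ℝ)).indicator hmeas
    have hintS' : ∀ k : ℕ, Integrable (fun x => S.indicator (fun _ => (1 : ℝ)) (T^[k] x)) μ :=
      fun k => (hT.iterate k).integrable_comp_of_integrable hintS
    have h1 : ∫ x, ∑ k ∈ Finset.range n, (f (T^[k] x) - u) ∂μ ≤
        ∫ x, B * (∑ k ∈ Finset.range n,
          S.indicator (fun _ => (1 : ℝ)) (T^[k] x) + I.card) ∂μ := by
      apply integral_mono_ae
      · exact integrable_finsetSum _ fun k _ => (hint k).sub (integrable_const _)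
      · exact ((integrable_finsetSum _ fun k _ => hintS' k).add (integrable_const _)).const_mul _
      · filter_upwards [hgood] with x hx
        exact erg_pointwise hC T f B u hB hfB G I x hx n
    have h2 : ∫ x, ∑ k ∈ Finset.range n, (f (T^[k] x) - u) ∂μ = n * (∫ x, f x ∂μ - u) := by
      have hsub : ∀ k : ℕ, Integrable (fun x => f (T^[k] x) - u) μ := fun k =>
        (hint k).sub (integrable_const _)
      rw [integral_finsetSum _ fun k _ => hsub k]
      have : ∀ k ∈ Finset.range n, ∫ x, (f (T^[k] x) - u) ∂μ = ∫ x, f x ∂μ - u := by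
        intro k _
        rw [integral_sub (hint k) (integrable_const _)]
        congr 1
        · exact integral_comp_of_ae (hT.iterate k) hf
        · simp
      rw [Finset.sum_congr rfl this]
      simp only [Finset.sum_const, Finset.card_range, nsmul_eq_mul]
    have h3 : ∫ x, B * (∑ k ∈ Finset.range n,
        S.indicator (fun _ => (1 : ℝ)) (T^[k] x) + I.card) ∂μ
        = B * (n * μ.real S + I.card) := by
      rw [integral_const_mul, integral_add (integrable_finsetSum _ fun k _ => hintS' k)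
        (integrable_const _), integral_finsetSum _ fun k _ => hintS' k]
      have : ∀ k ∈ Finset.range n, ∫ x, S.indicator (fun _ => (1 : ℝ)) (T^[k] x) ∂μ
          = μ.real S := by
        intro k _
        have h5 := integral_comp_of_ae (hT.iterate k) hintS.aestronglyMeasurable
        rw [h5, integral_indicator hmeas]
        simp
      rw [Finset.sum_congr rfl this]
      simp
    rw [h2, h3] at h1
    have hn' : (0 : ℝ) < n := by exact_mod_cast hn
    have h4 : B * (μ.real S + I.card / n) = B * (n * μ.real S + I.card) / n := by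
      field_simp
    rw [h4, le_div_iff₀ hn']
    linarith
  -- limit in `n`
  have key2 : ∀ (I : Finset ι), ∫ x, f x ∂μ - u ≤ B * μ.real (⋃ i ∈ I, G i)ᶜ := by
    intro I
    have hlim : Tendsto (fun n : ℕ => B * (μ.real (⋃ i ∈ I, G i)ᶜ + I.card / (n : ℝ))) atTop
        (𝓝 (B * (μ.real (⋃ i ∈ I, G i)ᶜ + 0))) :=
      (tendsto_const_nhds.add (tendsto_const_div_atTop_nhds_zero_nat _)).const_mul _
    rw [add_zero] at hlim
    refine ge_of_tendsto hlim ?_
    filter_upwards [eventually_gt_atTop 0] with n hn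
    exact key I n hn
  -- limit in `I`
  have hmono : Monotone (fun I : Finset ι => ⋃ i ∈ I, G i) := by
    intro I J hIJ
    exact Set.biUnion_subset_biUnion_left hIJ
  have hlim := tendsto_measure_iUnion_atTop (μ := μ) hmono
  have hU : μ (⋃ I : Finset ι, ⋃ i ∈ I, G i) = 1 := by
    have h1 : (⋃ I : Finset ι, ⋃ i ∈ I, G i)ᶜ ⊆ {x | ¬ ∃ i, x ∈ G i} := by
      intro x hx
      simp only [Set.mem_compl_iff, Set.mem_iUnion, not_exists] at hx
      simp only [Set.mem_ofPred_eq, not_exists]
      intro i hi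
      exact hx {i} i (Finset.mem_singleton_self i) hi
    have h2 : μ (⋃ I : Finset ι, ⋃ i ∈ I, G i)ᶜ = 0 := measure_mono_null h1 hcov
    have h3 : MeasurableSet (⋃ I : Finset ι, ⋃ i ∈ I, G i) :=
      MeasurableSet.iUnion fun I => Finset.measurableSet_biUnion I fun i _ => hG i
    exact (prob_compl_eq_zero_iff h3).1 h2
  rw [hU] at hlim
  have hlim2 : Tendsto (fun I : Finset ι => B * μ.real (⋃ i ∈ I, G i)ᶜ) atTop (𝓝 (B * (1 - 1))) := by
    refine Tendsto.const_mul _ ?_
    have h1 : ∀ I : Finset ι, μ.real (⋃ i ∈ I, G i)ᶜ = 1 - (μ (⋃ i ∈ I, G i)).toReal := by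
      intro I
      rw [probReal_compl_eq_one_sub (Finset.measurableSet_biUnion I fun i _ => hG i)]
      rfl
    simp only [h1]
    refine tendsto_const_nhds.sub ?_
    have h2 := (ENNReal.tendsto_toReal ENNReal.one_ne_top).comp hlim
    rw [ENNReal.toReal_one] at h2
    exact h2
  have := ge_of_tendsto' hlim2 key2
  simp only [sub_self, mul_zero] at this
  linarith

end Pool.Agent.H34.PB
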